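import Pool.Agent.H85.KS2.Targets

/-! Row SH2 of ks2_modules: the sharp form of Hensel's lemma for `x ^ k = a`. -/

set_option autoImplicit false
open Pool.Agent.H98.KS Pool.Agent.H85.KS2
namespace Pool.Agent.H73.KS2

/-- lifting the exponent -/
theorem lte (p k v c : ℕ) (hp : p.Prime) (h1 : p ^ v ∣ k) (h2 : ¬ p ^ (v + 1) ∣ k)
    (hc : p ≠ 2 ∧ c = 1 ∨ p = 2 ∧ c = 2) (x y : ℤ) (hx : (p : ℤ) ^ c ∣ x - 1)
    (hy : (p : ℤ) ^ c ∣ y - 1) (n : ℕ) :
    (p : ℤ) ^ (n + v) ∣ x ^ k - y ^ k ↔ (p : ℤ) ^ n ∣ x - y := by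
  have hpp : Prime (p : ℤ) := Nat.prime_iff_prime_int.mp hp
  have hc1 : 1 ≤ c := by omega
  have hpx : ¬ (p : ℤ) ∣ x := by
    intro h
    have h3 : (p : ℤ) ∣ x - 1 := (dvd_pow_self _ (by omega)).trans hx
    have h4 : (p : ℤ) ∣ 1 := by
      have := dvd_sub h h3
      simpa using this
    exact hpp.not_isUnit (isUnit_of_dvd_one h4)
  have hxy : (p : ℤ) ^ c ∣ x - y := by
    have := dvd_sub hx hy
    simpa using this
  have hk : emultiplicity (p : ℤ) (k : ℤ) = v := by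
    rw [Int.natCast_emultiplicity]
    exact emultiplicity_eq_of_dvd_of_not_dvd h1 h2
  have key : emultiplicity (p : ℤ) (x ^ k - y ^ k) = emultiplicity (p : ℤ) (x - y) + v := by
    rcases hc with ⟨hp2, rfl⟩ | ⟨rfl, rfl⟩
    · rw [pow_one] at hxy
      rw [Int.emultiplicity_pow_sub_pow hp (hp.odd_of_ne_two hp2) hxy hpx, ← Int.natCast_emultiplicity, hk]
    · have h := Int.two_pow_sub_pow' k (x := x) (y := y) (by simpa using hxy) (by simpa using hpx)
      have h' : emultiplicity (2 : ℤ) (k : ℤ) = v := by simpa using hk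
      rw [h'] at h
      simpa using h
  rw [pow_dvd_iff_le_emultiplicity, pow_dvd_iff_le_emultiplicity, key]
  push_cast
  exact ENat.add_le_add_iff_right (ENat.natCast_ne_top v)

theorem ks2_SH2 : T_SH2 := by
  intro k p v g a hk hp h1 h2 hg ha n
  have hppos : 0 < p := hp.pos
  obtain ⟨c, hc, hgc⟩ : ∃ c : ℕ, (p ≠ 2 ∧ c = 1 ∨ p = 2 ∧ c = 2) ∧ g = c + v := by
    rcases hg with ⟨hp2, rfl⟩ | ⟨hp2, rfl⟩
    · exact ⟨1, Or.inl ⟨hp2, rfl⟩, by omega⟩
    · exact ⟨2, Or.inr ⟨hp2, rfl⟩, by omega⟩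
  have hc1 : 1 ≤ c := by omega
  rcases le_or_gt n g with hn | hn
  · refine ⟨1, by simp, ?_⟩
    rw [one_pow]
    have h3 := (dvd_neg (α := ℤ)).mpr ha
    rw [neg_sub] at h3
    exact (pow_dvd_pow _ hn).trans h3
  obtain ⟨m, rfl⟩ : ∃ m, n = m + g := ⟨n - g, by omega⟩
  -- the points
  let X : ZMod (p ^ m) → ℤ := fun t => 1 + (p : ℤ) ^ c * (t.val : ℤ)
  have hX : ∀ t, (p : ℤ) ^ c ∣ X t - 1 := fun t => ⟨t.val, by simp [X]⟩
  have hXk : ∀ t, ∃ q : ℤ, X t ^ k = 1 + (p : ℤ) ^ g * q := by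
    intro t
    have h3 := (lte p k v c hp h1 h2 hc (X t) 1 (hX t) (by simp) c).2 (by simpa using hX t)
    rw [one_pow, ← hgc] at h3
    obtain ⟨q, hq⟩ := h3
    exact ⟨q, by linarith⟩
  choose Q hQ using hXk
  have : NeZero (p ^ m) := ⟨(pow_pos hppos m).ne'⟩
  let f : ZMod (p ^ m) → ZMod (p ^ m) := fun t => (Q t : ZMod (p ^ m))
  have hinj : Function.Injective f := by
    intro s t hst
    have h3 : ((p ^ m : ℕ) : ℤ) ∣ Q s - Q t := by
      rw [← ZMod.intCast_zmod_eq_zero_iff_dvd]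
      push_cast
      exact sub_eq_zero.2 hst
    obtain ⟨w, hw⟩ := h3
    have h4 : (p : ℤ) ^ ((m + c) + v) ∣ X s ^ k - X t ^ k := by
      refine ⟨w, ?_⟩
      rw [hQ, hQ, add_assoc m c v, ← hgc, pow_add]
      push_cast at hw
      linear_combination (p : ℤ) ^ g * hw
    have h5 := (lte p k v c hp h1 h2 hc (X s) (X t) (hX s) (hX t) (m + c)).1 h4
    obtain ⟨w', hw'⟩ := h5
    have hpc : (p : ℤ) ^ c ≠ 0 := pow_ne_zero _ (by exact_mod_cast hppos.ne')
    have h6 : ((s.val : ℤ) - t.val) = (p : ℤ) ^ m * w' := by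
      apply mul_left_cancel₀ hpc
      have : X s - X t = (p : ℤ) ^ c * ((s.val : ℤ) - t.val) := by
        simp only [X]
        ring
      rw [← this, hw', pow_add]
      ring
    have h7 : (((s.val : ℤ) : ZMod (p ^ m))) = ((t.val : ℤ) : ZMod (p ^ m)) := by
      have h8 : (((s.val : ℤ) - t.val : ℤ) : ZMod (p ^ m)) = 0 := by
        rw [h6, ZMod.intCast_zmod_eq_zero_iff_dvd]
        push_cast
        exact dvd_mul_right _ _
      push_cast at h8 ⊢
      exact sub_eq_zero.1 h8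
    simpa using h7
  have hsur : Function.Surjective f := Finite.surjective_of_injective hinj
  obtain ⟨b, hb⟩ := ha
  obtain ⟨t, ht⟩ := hsur (b : ZMod (p ^ m))
  refine ⟨X t, (dvd_pow_self _ (by omega)).trans (hX t), ?_⟩
  have h3 : ((p ^ m : ℕ) : ℤ) ∣ Q t - b := by
    rw [← ZMod.intCast_zmod_eq_zero_iff_dvd]
    push_cast
    exact sub_eq_zero.2 ht
  obtain ⟨w, hw⟩ := h3
  refine ⟨w, ?_⟩
  rw [hQ, pow_add]
  push_cast at hw
  linear_combination (p : ℤ) ^ g * hw - hb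

end Pool.Agent.H73.KS2
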