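import Pool.Agent.H85.KS2.Targets

/-! Row WD of ks2_modules: Weyl differencing. -/

set_option autoImplicit false
open Pool.Agent.H98.KS Pool.Agent.H85.KS2
namespace Pool.Agent.H73.KS2

theorem wd_conj (x : ℝ) : (starRingEnd ℂ) (ee x) = ee (-x) := by
  unfold ee
  rw [← Complex.exp_conj]
  congr 1
  rw [map_mul, map_mul, map_mul, Complex.conj_ofReal, Complex.conj_ofReal, Complex.conj_I,
    show (2 : ℂ) = ((2 : ℝ) : ℂ) by norm_num, Complex.conj_ofReal]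
  push_cast
  ring

theorem wd_add (x y : ℝ) : ee (x + y) = ee x * ee y := by
  unfold ee
  rw [← Complex.exp_add]
  congr 1
  push_cast
  ring

/-- change of variables -/
theorem wd_sum (N : ℕ) (S : Finset ℤ) (h : ∀ u ∈ S, ∀ w ∈ S, |u - w| < N) (G : ℤ → ℤ → ℂ) :
    ∑ l ∈ Finset.Ioo (-(N : ℤ)) N, ∑ u ∈ S.filter (fun u => u + l ∈ S), G u (u + l) =
      ∑ u ∈ S, ∑ w ∈ S, G u w := by
  have h1 : ∀ l ∈ Finset.Ioo (-(N : ℤ)) N, ∑ u ∈ S.filter (fun u => u + l ∈ S), G u (u + l) =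
      ∑ u ∈ S, if u + l ∈ S then G u (u + l) else 0 := fun l _ => Finset.sum_filter _ _
  rw [Finset.sum_congr rfl h1, Finset.sum_comm]
  refine Finset.sum_congr rfl fun u hu => ?_
  rw [← Finset.sum_filter]
  refine Finset.sum_bij' (fun l _ => u + l) (fun w _ => w - u) ?_ ?_ ?_ ?_ ?_
  · intro l hl
    exact (Finset.mem_filter.1 hl).2
  · intro w hw
    have h2 := h w hw u hu
    rw [abs_lt] at h2
    rw [Finset.mem_filter, Finset.mem_Ioo]
    refine ⟨h2, ?_⟩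
    rw [add_sub_cancel]
    exact hw
  · intro l _
    ring
  · intro w _
    ring
  · intro l _
    rfl

theorem wd_one (N : ℕ) (S : Finset ℤ) (f : ℤ → ℤ) (θ : ℝ)
    (h : ∀ u ∈ S, ∀ w ∈ S, |u - w| < N) :
    EE N 1 S f θ = ((‖EE N 0 S f θ‖ ^ 2 : ℝ) : ℂ) := by
  have h1 : EE N 1 S f θ = ∑ l ∈ Finset.Ioo (-(N : ℤ)) N,
      ∑ u ∈ S.filter (fun u => u + l ∈ S), (fun a b => ee (θ * ((f b - f a : ℤ) : ℝ))) u (u + l) :=
    rfl
  rw [h1, wd_sum N S h (fun a b => ee (θ * ((f b - f a : ℤ) : ℝ)))]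
  have h2 : ((‖EE N 0 S f θ‖ ^ 2 : ℝ) : ℂ) =
      (starRingEnd ℂ) (EE N 0 S f θ) * EE N 0 S f θ := by
    rw [Complex.conj_mul']
    push_cast
    rfl
  rw [h2]
  have h3 : EE N 0 S f θ = ∑ u ∈ S, ee (θ * (f u : ℝ)) := rfl
  rw [h3, map_sum, Finset.sum_mul_sum]
  refine Finset.sum_congr rfl fun u _ => Finset.sum_congr rfl fun w _ => ?_
  rw [wd_conj, ← wd_add]
  congr 1
  push_cast
  ring

theorem ks2_WD : T_WD := by
  intro N j S f θ hj
  induction j, hj using Nat.le_induction generalizing S f with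
  | base =>
    intro h
    rw [wd_one N S f θ h, Complex.ofReal_re]
    norm_num
  | succ j hj ih =>
    intro h
    have h1 : EE N 1 S f θ = ∑ l ∈ Finset.Ioo (-(N : ℤ)) N,
        EE N 0 (S.filter fun u => u + l ∈ S) (fun u => f (u + l) - f u) θ := rfl
    have h2 : ‖EE N 0 S f θ‖ ^ 2 = ‖EE N 1 S f θ‖ := by
      rw [wd_one N S f θ h, Complex.norm_real, Real.norm_eq_abs, abs_of_nonneg (by positivity)]
    have hcard : ((Finset.Ioo (-(N : ℤ)) N).card : ℝ) ≤ 2 * (N : ℝ) := by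
      rw [Int.card_Ioo]
      have h3 : ((N : ℤ) - -(N : ℤ) - 1).toNat ≤ 2 * N := by omega
      exact_mod_cast h3
    have hpow : 1 ≤ 2 ^ j := Nat.one_le_two_pow
    have hpj : j + 1 ≤ 2 ^ j := Nat.lt_two_pow_self
    have hN : (0 : ℝ) ≤ 2 * (N : ℝ) := by positivity
    set a : ℤ → ℝ := fun l =>
      ‖EE N 0 (S.filter fun u => u + l ∈ S) (fun u => f (u + l) - f u) θ‖ with ha
    have hmean : (∑ l ∈ Finset.Ioo (-(N : ℤ)) N, a l) ^ (2 ^ j) ≤
        (2 * (N : ℝ)) ^ (2 ^ j - 1) * ∑ l ∈ Finset.Ioo (-(N : ℤ)) N, a l ^ (2 ^ j) := by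
      have ha0 : ∀ i ∈ Finset.Ioo (-(N : ℤ)) N, 0 ≤ a i := fun i _ => norm_nonneg _
      obtain ⟨m, hm⟩ : ∃ m, 2 ^ j = m + 1 := ⟨2 ^ j - 1, by omega⟩
      rw [hm, Nat.add_sub_cancel]
      rcases Finset.eq_empty_or_nonempty (Finset.Ioo (-(N : ℤ)) N) with he | he
      · rw [he]
        simp
      have hc0 : (0 : ℝ) < ((Finset.Ioo (-(N : ℤ)) N).card : ℝ) := by
        exact_mod_cast Finset.card_pos.2 he
      have h4 := pow_sum_div_card_le_sum_pow (s := Finset.Ioo (-(N : ℤ)) N) (f := a) ha0 m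
      rw [div_le_iff₀ (pow_pos hc0 m)] at h4
      refine h4.trans ?_
      rw [mul_comm]
      refine mul_le_mul_of_nonneg_right (pow_le_pow_left₀ hc0.le hcard m) ?_
      exact Finset.sum_nonneg fun i hi => pow_nonneg (ha0 i hi) _
    have hstep : ∀ l ∈ Finset.Ioo (-(N : ℤ)) N, a l ^ (2 ^ j) ≤
        (2 * (N : ℝ)) ^ (2 ^ j - j - 1) *
          (EE N j (S.filter fun u => u + l ∈ S) (fun u => f (u + l) - f u) θ).re := by
      intro l _
      refine ih _ _ ?_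
      intro u hu w hw
      exact h u (Finset.mem_filter.1 hu).1 w (Finset.mem_filter.1 hw).1
    have h5 : (EE N (j + 1) S f θ).re = ∑ l ∈ Finset.Ioo (-(N : ℤ)) N,
        (EE N j (S.filter fun u => u + l ∈ S) (fun u => f (u + l) - f u) θ).re := by
      have h6 : EE N (j + 1) S f θ = ∑ l ∈ Finset.Ioo (-(N : ℤ)) N,
        EE N j (S.filter fun u => u + l ∈ S) (fun u => f (u + l) - f u) θ := rfl
      rw [h6, Complex.re_sum]
    have hexp : 2 ^ (j + 1) - (j + 1) - 1 = (2 ^ j - 1) + (2 ^ j - j - 1) := by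
      rw [pow_succ]
      omega
    calc ‖EE N 0 S f θ‖ ^ (2 ^ (j + 1)) = ‖EE N 1 S f θ‖ ^ (2 ^ j) := by
          rw [← h2, ← pow_mul, pow_succ, mul_comm]
      _ ≤ (∑ l ∈ Finset.Ioo (-(N : ℤ)) N, a l) ^ (2 ^ j) := by
          refine pow_le_pow_left₀ (norm_nonneg _) ?_ _
          rw [h1]
          exact norm_sum_le _ _
      _ ≤ _ := hmean
      _ ≤ (2 * (N : ℝ)) ^ (2 ^ j - 1) * ∑ l ∈ Finset.Ioo (-(N : ℤ)) N,
          ((2 * (N : ℝ)) ^ (2 ^ j - j - 1) *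
          (EE N j (S.filter fun u => u + l ∈ S) (fun u => f (u + l) - f u) θ).re) := by
          refine mul_le_mul_of_nonneg_left (Finset.sum_le_sum hstep) (by positivity)
      _ = _ := by
          rw [← Finset.mul_sum, ← h5, ← mul_assoc, ← pow_add, ← hexp]

end Pool.Agent.H73.KS2
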